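import Mathlib

/-! The cubic transformation of the Hasse polynomial modulo `p`. -/

set_option autoImplicit false
set_option linter.unusedSimpArgs false

namespace Pool.Agent.Q278.LS

open Polynomial Finset

variable {p : ℕ} [Fact p.Prime]

/-- homogeneous form with weights `k ^ i` -/
noncomputable def hh (p i : ℕ) [Fact p.Prime] (X Y : (ZMod p)[X]) : (ZMod p)[X] :=
  ∑ k ∈ range (p / 2 + 1), C (((p / 2).choose k : ZMod p) ^ 2 * (k : ZMod p) ^ i) * (X ^ k * Y ^ (p / 2 - k))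

lemma two_half (hp2 : p ≠ 2) : (2 : ZMod p) * ((p / 2 : ℕ) : ZMod p) = -1 := by
  have hodd : p % 2 = 1 := by
    rcases (Fact.out : p.Prime).eq_two_or_odd with h | h
    · exact absurd h hp2
    · exact h
  have h1 : 2 * (p / 2) + 1 = p := by omega
  have h2 : ((2 * (p / 2) + 1 : ℕ) : ZMod p) = 0 := by rw [h1]; exact ZMod.natCast_self p
  push_cast at h2
  linear_combination h2

lemma der_term (X Y : (ZMod p)[X]) (N k : ℕ) (hk : k ≤ N) :
    X * Y * derivative (X ^ k * Y ^ (N - k)) =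
      (C (k : ZMod p) * (derivative X * Y - X * derivative Y) + C (N : ZMod p) * (X * derivative Y)) *
        (X ^ k * Y ^ (N - k)) := by
  obtain ⟨m, rfl⟩ : ∃ m, N = k + m := ⟨N - k, by omega⟩
  rw [Nat.add_sub_cancel_left, derivative_mul, derivative_pow, derivative_pow]
  have h1 : X * (C (k : ZMod p) * X ^ (k - 1) * derivative X) =
      C (k : ZMod p) * X ^ k * derivative X := by
    rcases Nat.eq_zero_or_pos k with rfl | h
    · simp
    · obtain ⟨l, rfl⟩ : ∃ l, k = l + 1 := ⟨k - 1, by omega⟩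
      rw [Nat.add_sub_cancel, pow_succ]; ring
  have h2 : Y * (C (m : ZMod p) * Y ^ (m - 1) * derivative Y) =
      C (m : ZMod p) * Y ^ m * derivative Y := by
    rcases Nat.eq_zero_or_pos m with rfl | h
    · simp
    · obtain ⟨l, rfl⟩ : ∃ l, m = l + 1 := ⟨m - 1, by omega⟩
      rw [Nat.add_sub_cancel, pow_succ]; ring
  have h3 : C ((k + m : ℕ) : ZMod p) = (C (k : ZMod p) + C (m : ZMod p) : (ZMod p)[X]) := by
    rw [Nat.cast_add, C_add]
  rw [h3]
  linear_combination Y * Y ^ m * h1 + X * X ^ k * h2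

lemma der_hh (hp2 : p ≠ 2) (i : ℕ) (X Y : (ZMod p)[X]) :
    2 * (X * Y * derivative (hh p i X Y)) =
      2 * (derivative X * Y - X * derivative Y) * hh p (i + 1) X Y - X * derivative Y * hh p i X Y := by
  unfold hh
  rw [derivative_sum, mul_sum, mul_sum, mul_sum, mul_sum, ← sum_sub_distrib]
  refine sum_congr rfl fun k hk => ?_
  rw [mem_range, Nat.lt_succ_iff] at hk
  rw [derivative_C_mul]
  have h1 := der_term X Y (p / 2) k hk
  have h2 : (2 : (ZMod p)[X]) * C (((p / 2 : ℕ) : ZMod p)) = -1 := by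
    have h3 := congrArg (C : ZMod p → (ZMod p)[X]) (two_half (p := p) hp2)
    rw [C_mul, C_neg, C_1] at h3
    have h4 : (C (2 : ZMod p) : (ZMod p)[X]) = 2 := by
      rw [show (2 : ZMod p) = ((2 : ℕ) : ZMod p) by norm_num, C_eq_natCast]; norm_num
    rw [h4] at h3
    exact h3
  have e0 : (C (((p / 2).choose k : ZMod p) ^ 2 * (k : ZMod p) ^ i) : (ZMod p)[X]) =
      C ((p / 2).choose k : ZMod p) ^ 2 * C (k : ZMod p) ^ i := by
    rw [C_mul, C_pow, C_pow]
  have e1 : (C (((p / 2).choose k : ZMod p) ^ 2 * (k : ZMod p) ^ (i + 1)) : (ZMod p)[X]) =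
      C ((p / 2).choose k : ZMod p) ^ 2 * C (k : ZMod p) ^ i * C (k : ZMod p) := by
    rw [C_mul, C_pow, C_pow, pow_succ (C (k : ZMod p)) i, mul_assoc]
  rw [e0, e1]
  linear_combination 2 * (C ((p / 2).choose k : ZMod p) ^ 2 * C (k : ZMod p) ^ i) * h1 +
    (C ((p / 2).choose k : ZMod p) ^ 2 * C (k : ZMod p) ^ i) * (X ^ k * Y ^ (p / 2 - k)) *
      X * derivative Y * h2

lemma ode_hh (hp2 : p ≠ 2) (X Y : (ZMod p)[X]) :
    4 * ((Y - X) * hh p 2 X Y) = X * (4 * hh p 1 X Y + hh p 0 X Y) := by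
  have h4 : (C (4 : ZMod p) : (ZMod p)[X]) = 4 := by
    rw [show (4 : ZMod p) = ((4 : ℕ) : ZMod p) by norm_num, C_eq_natCast]; norm_num
  set c : ℕ → ZMod p := fun k => ((p / 2).choose k : ZMod p) ^ 2 with hc
  have hl : 4 * (Y * hh p 2 X Y) = ∑ j ∈ range (p / 2),
      C (4 * (c (j + 1) * ((j : ZMod p) + 1) ^ 2)) * (X ^ (j + 1) * Y ^ (p / 2 - j)) := by
    unfold hh
    rw [sum_range_succ']
    simp only [Nat.cast_zero, ne_eq, OfNat.ofNat_ne_zero, not_false_eq_true, zero_pow, mul_zero, C_0,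
      zero_mul, add_zero]
    rw [mul_sum, mul_sum]
    refine sum_congr rfl fun j hj => ?_
    rw [mem_range] at hj
    have h1 : p / 2 - j = p / 2 - (j + 1) + 1 := by omega
    have h2 : (C (4 * (c (j + 1) * ((j : ZMod p) + 1) ^ 2)) : (ZMod p)[X]) =
        4 * C (((p / 2).choose (j + 1) : ZMod p) ^ 2 * ((j + 1 : ℕ) : ZMod p) ^ 2) := by
      rw [C_mul, h4]
      simp only [hc]
      push_cast
      rfl
    rw [h2, h1, pow_succ Y]
    ring
  have hr : 4 * (X * hh p 2 X Y) + X * (4 * hh p 1 X Y + hh p 0 X Y) = ∑ j ∈ range (p / 2 + 1),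
      C (c j * (2 * (j : ZMod p) + 1) ^ 2) * (X ^ (j + 1) * Y ^ (p / 2 - j)) := by
    unfold hh
    simp only [mul_sum, mul_add]
    rw [← sum_add_distrib, ← sum_add_distrib]
    refine sum_congr rfl fun j hj => ?_
    have h1 : (C (c j * (2 * (j : ZMod p) + 1) ^ 2) : (ZMod p)[X]) =
        4 * C (c j * (j : ZMod p) ^ 2) + 4 * C (c j * (j : ZMod p) ^ 1) + C (c j * (j : ZMod p) ^ 0) := by
      rw [← h4, ← C_mul, ← C_mul, ← C_add, ← C_add]
      congr 1
      ring
    rw [h1, pow_succ X]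
    simp only [hc]
    ring
  have hs : ∑ j ∈ range (p / 2 + 1),
      C (c j * (2 * (j : ZMod p) + 1) ^ 2) * (X ^ (j + 1) * Y ^ (p / 2 - j)) =
      ∑ j ∈ range (p / 2),
      C (4 * (c (j + 1) * ((j : ZMod p) + 1) ^ 2)) * (X ^ (j + 1) * Y ^ (p / 2 - j)) := by
    rw [sum_range_succ]
    have h0 : (2 * ((p / 2 : ℕ) : ZMod p) + 1) ^ 2 = 0 := by
      rw [two_half hp2]; ring
    rw [h0, mul_zero, C_0, zero_mul, add_zero]
    refine sum_congr rfl fun j hj => ?_
    rw [mem_range] at hj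
    congr 2
    have h1 := Nat.choose_succ_right_eq (p / 2) j
    have h2 : (((p / 2).choose (j + 1) : ℕ) : ZMod p) * ((j : ZMod p) + 1) =
        ((p / 2).choose j : ZMod p) * (((p / 2 : ℕ) : ZMod p) - j) := by
      have h3 := congrArg (Nat.cast : ℕ → ZMod p) h1
      rw [Nat.cast_mul, Nat.cast_mul, Nat.cast_sub (by omega), Nat.cast_add, Nat.cast_one] at h3
      exact h3
    have h5 := two_half (p := p) hp2
    have h6 : 4 * (((p / 2 : ℕ) : ZMod p) - j) ^ 2 = (2 * (j : ZMod p) + 1) ^ 2 := by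
      linear_combination (2 * ((p / 2 : ℕ) : ZMod p) - 4 * j - 1) * h5
    simp only [hc]
    calc ((p / 2).choose j : ZMod p) ^ 2 * (2 * (j : ZMod p) + 1) ^ 2
        = 4 * (((p / 2).choose j : ZMod p) * (((p / 2 : ℕ) : ZMod p) - j)) ^ 2 := by
          rw [← h6]; ring
      _ = 4 * ((((p / 2).choose (j + 1) : ℕ) : ZMod p) * ((j : ZMod p) + 1)) ^ 2 := by rw [h2]
      _ = _ := by ring
  linear_combination hl - hr - hs

/-- the differential operator -/
noncomputable def LL (f : (ZMod p)[X]) : (ZMod p)[X] :=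
  (1 - X ^ 2) * (1 + 2 * X) * ((2 + 2 * X) * ((1 + 2 * X) * derivative f + f) +
    X * (2 + X) * ((1 + 2 * X) * derivative (derivative f) + 3 * derivative f)) -
  (1 + 2 * X + 3 * X ^ 2) * (X * (2 + X) * ((1 + 2 * X) * derivative f + f)) -
  9 * X ^ 2 * (1 + X) ^ 2 * f

lemma LL_sub (f g : (ZMod p)[X]) : LL (f - g) = LL f - LL g := by
  unfold LL
  simp only [derivative_sub]
  ring

/-- first side -/
noncomputable def AA (p : ℕ) [Fact p.Prime] : (ZMod p)[X] := hh p 0 (X * (2 + X) ^ 3) ((1 + 2 * X) ^ 3)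

/-- second side -/
noncomputable def BB (p : ℕ) [Fact p.Prime] : (ZMod p)[X] := hh p 0 (X ^ 3 * (2 + X)) (1 + 2 * X)

lemma two_ne (hp2 : p ≠ 2) : (2 : ZMod p) ≠ 0 := by
  intro h
  have h1 : ((2 : ℕ) : ZMod p) = 0 := by exact_mod_cast h
  rw [ZMod.natCast_eq_zero_iff] at h1
  exact hp2 ((Nat.prime_dvd_prime_iff_eq Fact.out Nat.prime_two).mp h1)

lemma three_ne (hp3 : p ≠ 3) : (3 : ZMod p) ≠ 0 := by
  intro h
  have h1 : ((3 : ℕ) : ZMod p) = 0 := by exact_mod_cast h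
  rw [ZMod.natCast_eq_zero_iff] at h1
  exact hp3 ((Nat.prime_dvd_prime_iff_eq Fact.out Nat.prime_three).mp h1)

lemma ne_of_eval {f : (ZMod p)[X]} (a : ZMod p) (h : f.eval a ≠ 0) : f ≠ 0 := by
  rintro rfl
  simp at h

lemma twoP_ne (hp2 : p ≠ 2) : (2 : (ZMod p)[X]) ≠ 0 := by
  apply ne_of_eval 0
  simpa using two_ne hp2

lemma d2X : derivative (2 + X : (ZMod p)[X]) = 1 := by
  have : (2 : (ZMod p)[X]) = C 2 := rfl
  rw [derivative_add, derivative_X, this, derivative_C, zero_add]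

lemma d12X : derivative (1 + 2 * X : (ZMod p)[X]) = 2 := by
  have : (2 : (ZMod p)[X]) = C 2 := rfl
  rw [derivative_add, derivative_one, this, derivative_C_mul, derivative_X, zero_add, mul_one]

lemma d2 : derivative (2 : (ZMod p)[X]) = 0 := by
  have : (2 : (ZMod p)[X]) = C 2 := rfl
  rw [this, derivative_C]

lemma d3 : derivative (3 : (ZMod p)[X]) = 0 := by
  have : (3 : (ZMod p)[X]) = C 3 := rfl
  rw [this, derivative_C]

lemma d6 : derivative (6 : (ZMod p)[X]) = 0 := by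
  have : (6 : (ZMod p)[X]) = C 6 := rfl
  rw [this, derivative_C]

lemma dpow (f : (ZMod p)[X]) (n : ℕ) : derivative (f ^ (n + 1)) = ((n + 1 : ℕ) : (ZMod p)[X]) * f ^ n * derivative f := by
  rw [derivative_pow, Nat.add_sub_cancel]
  simp

lemma LL_BB (hp2 : p ≠ 2) : LL (BB p) = 0 := by
  set t : (ZMod p)[X] := X with ht
  set f := BB p with hf
  set g := hh p 1 (t ^ 3 * (2 + t)) (1 + 2 * t) with hg
  set g2 := hh p 2 (t ^ 3 * (2 + t)) (1 + 2 * t) with hg2
  have dX : derivative (t ^ 3 * (2 + t)) = 3 * t ^ 2 * (2 + t) + t ^ 3 := by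
    rw [derivative_mul, dpow, d2X, derivative_X]; push_cast; ring
  have r1 := der_hh hp2 0 (t ^ 3 * (2 + t)) (1 + 2 * t)
  have r2 := der_hh hp2 1 (t ^ 3 * (2 + t)) (1 + 2 * t)
  have r3 := ode_hh hp2 (t ^ 3 * (2 + t)) (1 + 2 * t)
  rw [dX, d12X] at r1 r2
  rw [← hg] at r1 r2 r3
  rw [← hg2] at r2 r3
  have hfe : hh p 0 (t ^ 3 * (2 + t)) (1 + 2 * t) = f := rfl
  rw [hfe] at r1 r3
  have h2 := twoP_ne (p := p) hp2
  have ht0 : t ≠ 0 := X_ne_zero
  have h2t : (2 + t) ≠ 0 := by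
    apply ne_of_eval 0
    rw [ht]
    simpa using two_ne hp2
  have E1 : t * (2 + t) * ((1 + 2 * t) * derivative f + f) = 6 * (t + 1) ^ 2 * g := by
    apply mul_left_cancel₀ (mul_ne_zero h2 (pow_ne_zero 2 ht0))
    linear_combination r1
  have E2 : t * (2 + t) * ((1 + 2 * t) * derivative g + g) = 6 * (t + 1) ^ 2 * g2 := by
    apply mul_left_cancel₀ (mul_ne_zero h2 (pow_ne_zero 2 ht0))
    linear_combination r2
  have E3 : 4 * ((1 - t) * (1 + t) ^ 3 * g2) = t ^ 3 * (2 + t) * (4 * g + f) := by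
    linear_combination r3
  have dE1 := congrArg derivative E1
  simp only [derivative_mul, derivative_add, dpow, d12X, d2X, d2, d6, derivative_X, derivative_one,
    ← ht] at dE1
  have hx : derivative t = 1 := derivative_X
  simp only [hx] at dE1
  push_cast at dE1
  have key : t * (2 + t) * LL f = 0 := by
    unfold LL
    rw [← ht]
    linear_combination t * (2 + t) * (1 - t ^ 2) * (1 + 2 * t) * dE1 -
      t * (2 + t) * (1 + 2 * t + 3 * t ^ 2) * E1 + 6 * (1 - t ^ 2) * (t + 1) ^ 2 * E2 +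
      9 * (1 + t) ^ 2 * E3
  rcases mul_eq_zero.mp key with h | h
  · exact absurd h (mul_ne_zero ht0 h2t)
  · exact h

lemma LL_AA (hp2 : p ≠ 2) : LL (AA p) = 0 := by
  set t : (ZMod p)[X] := X with ht
  set f := AA p with hf
  set g := hh p 1 (t * (2 + t) ^ 3) ((1 + 2 * t) ^ 3) with hg
  set g2 := hh p 2 (t * (2 + t) ^ 3) ((1 + 2 * t) ^ 3) with hg2
  have dX : derivative (t * (2 + t) ^ 3) = (2 + t) ^ 3 + 3 * t * (2 + t) ^ 2 := by
    rw [derivative_mul, dpow, d2X, derivative_X]; push_cast; ring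
  have dY : derivative ((1 + 2 * t) ^ 3) = 6 * (1 + 2 * t) ^ 2 := by
    rw [dpow, d12X]; push_cast; ring
  have r1 := der_hh hp2 0 (t * (2 + t) ^ 3) ((1 + 2 * t) ^ 3)
  have r2 := der_hh hp2 1 (t * (2 + t) ^ 3) ((1 + 2 * t) ^ 3)
  have r3 := ode_hh hp2 (t * (2 + t) ^ 3) ((1 + 2 * t) ^ 3)
  rw [dX, dY] at r1 r2
  rw [← hg] at r1 r2 r3
  rw [← hg2] at r2 r3
  have hfe : hh p 0 (t * (2 + t) ^ 3) ((1 + 2 * t) ^ 3) = f := rfl
  rw [hfe] at r1 r3
  have h2 := twoP_ne (p := p) hp2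
  have ht0 : t ≠ 0 := X_ne_zero
  have h2t : (2 + t) ≠ 0 := by
    apply ne_of_eval 0
    rw [ht]
    simpa using two_ne hp2
  have h12t : (1 + 2 * t) ≠ 0 := by
    apply ne_of_eval 0
    rw [ht]
    simp
  have h1t : (1 - t) ≠ 0 := by
    apply ne_of_eval 0
    rw [ht]
    simp
  have hc : 2 * (2 + t) ^ 2 * (1 + 2 * t) ^ 2 ≠ 0 :=
    mul_ne_zero (mul_ne_zero h2 (pow_ne_zero 2 h2t)) (pow_ne_zero 2 h12t)
  have E1 : t * (2 + t) * ((1 + 2 * t) * derivative f + 3 * f) = 2 * (1 - t) ^ 2 * g := by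
    apply mul_left_cancel₀ hc
    linear_combination r1
  have E2 : t * (2 + t) * ((1 + 2 * t) * derivative g + 3 * g) = 2 * (1 - t) ^ 2 * g2 := by
    apply mul_left_cancel₀ hc
    linear_combination r2
  have E3 : 4 * ((1 - t) ^ 3 * (1 + t) * g2) = t * (2 + t) ^ 3 * (4 * g + f) := by
    linear_combination r3
  have dE1 := congrArg derivative E1
  simp only [derivative_mul, derivative_add, derivative_sub, dpow, d12X, d2X, d2, d3, d6,
    derivative_X, derivative_one, ← ht] at dE1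
  have hx : derivative t = 1 := derivative_X
  simp only [hx] at dE1
  push_cast at dE1
  have key : t * (2 + t) * LL f = 0 := by
    unfold LL
    rw [← ht]
    linear_combination t * (2 + t) * (1 - t ^ 2) * (1 + 2 * t) * dE1 -
      t * (2 + t) * (3 + 2 * t + t ^ 2) * E1 + 2 * (1 - t ^ 2) * (1 - t) ^ 2 * E2 +
      (1 - t) ^ 2 * E3
  rcases mul_eq_zero.mp key with h | h
  · exact absurd h (mul_ne_zero ht0 h2t)
  · exact h

end Pool.Agent.Q278.LS
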