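import Mathlib
import Pool.Agent.Q278.LS.Cubic

/-! Equality of the two sides, and the vanishing of the sum. -/

set_option autoImplicit false

namespace Pool.Agent.Q278.LS

open Polynomial Finset

variable {p : ℕ} [Fact p.Prime]

/-- first and second Euler derivatives of `s ^ j * E` -/
lemma euler1 (s E : (ZMod p)[X]) (hs : derivative s = 1) (j : ℕ) :
    s * derivative (s ^ j * E) = s ^ j * ((j : (ZMod p)[X]) * E + s * derivative E) := by
  rcases Nat.eq_zero_or_pos j with rfl | h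
  · simp
  · obtain ⟨l, rfl⟩ : ∃ l, j = l + 1 := ⟨j - 1, by omega⟩
    rw [derivative_mul, dpow, hs, pow_succ]
    ring

lemma euler2 (s E : (ZMod p)[X]) (hs : derivative s = 1) (j : ℕ) :
    s ^ 2 * derivative (derivative (s ^ j * E)) = s ^ j *
      (((j : (ZMod p)[X]) * ((j : (ZMod p)[X]) * E + s * derivative E) +
        s * derivative ((j : (ZMod p)[X]) * E + s * derivative E)) -
        ((j : (ZMod p)[X]) * E + s * derivative E)) := by
  have h1 := euler1 s E hs j
  have h2 := euler1 s ((j : (ZMod p)[X]) * E + s * derivative E) hs j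
  rw [← h1] at h2
  rw [derivative_mul, hs] at h2
  linear_combination h2 - h1

lemma root0 (hp2 : p ≠ 2) (D : (ZMod p)[X]) (hD : D ≠ 0) (hL : LL D = 0) :
    p ∣ D.rootMultiplicity 0 := by
  obtain ⟨E, hE, hnd⟩ := D.exists_eq_pow_rootMultiplicity_mul_and_not_dvd hD 0
  set j := D.rootMultiplicity 0 with hj
  rw [C_0, sub_zero] at hE hnd
  have hE0 : E.eval 0 ≠ 0 := by
    intro h
    exact hnd (by rw [X_dvd_iff, coeff_zero_eq_eval_zero]; exact h)
  have h1 := euler1 X E derivative_X j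
  have h2 := euler2 X E derivative_X j
  rw [← hE] at h1 h2
  set E1 := (j : (ZMod p)[X]) * E + X * derivative E with hE1
  set E2 := (j : (ZMod p)[X]) * E1 + X * derivative E1 with hE2
  have key : X ^ j * ((1 - X ^ 2) * (1 + 2 * X) * ((2 + 2 * X) * ((1 + 2 * X) * E1 + X * E) +
      (2 + X) * ((1 + 2 * X) * (E2 - E1) + 3 * X * E1)) -
      (1 + 2 * X + 3 * X ^ 2) * (X * (2 + X) * ((1 + 2 * X) * E1 + X * E)) -
      9 * X ^ 3 * (1 + X) ^ 2 * E) = 0 := by
    unfold LL at hL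
    have hXL : X * ((1 - X ^ 2) * (1 + 2 * X) * ((2 + 2 * X) * ((1 + 2 * X) * derivative D + D) +
      X * (2 + X) * ((1 + 2 * X) * derivative (derivative D) + 3 * derivative D)) -
      (1 + 2 * X + 3 * X ^ 2) * (X * (2 + X) * ((1 + 2 * X) * derivative D + D)) -
      9 * X ^ 2 * (1 + X) ^ 2 * D) = 0 := by rw [hL, mul_zero]
    linear_combination hXL - ((1 - X ^ 2) * (1 + 2 * X) * ((2 + 2 * X) * (1 + 2 * X) +
      3 * X * (2 + X)) - (1 + 2 * X + 3 * X ^ 2) * (X * (2 + X) * (1 + 2 * X))) * h1 -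
      (1 - X ^ 2) * (1 + 2 * X) * (2 + X) * (1 + 2 * X) * h2 -
      ((1 - X ^ 2) * (1 + 2 * X) * (2 + 2 * X) * X - (1 + 2 * X + 3 * X ^ 2) * (X * (2 + X) * X) -
      9 * X ^ 3 * (1 + X) ^ 2) * hE
  rcases mul_eq_zero.mp key with h | h
  · exact absurd h (pow_ne_zero _ X_ne_zero)
  · have h3 := congrArg (eval 0) h
    have e1 : E1.eval 0 = (j : ZMod p) * E.eval 0 := by rw [hE1]; simp
    have e2 : E2.eval 0 = (j : ZMod p) * ((j : ZMod p) * E.eval 0) := by rw [hE2]; simp [e1]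
    simp only [eval_mul, eval_add, eval_sub, eval_pow, eval_X, eval_one, eval_ofNat, eval_zero] at h3
    rw [e1, e2] at h3
    have h4 : (2 : ZMod p) * ((j : ZMod p) ^ 2 * E.eval 0) = 0 := by linear_combination h3
    have h5 : (j : ZMod p) = 0 := by
      by_contra hne
      exact (mul_ne_zero (two_ne hp2) (mul_ne_zero (pow_ne_zero 2 hne) hE0)) h4
    exact (ZMod.natCast_eq_zero_iff _ _).mp h5

lemma root1 (hp2 : p ≠ 2) (hp3 : p ≠ 3) (D : (ZMod p)[X]) (hD : D ≠ 0) (hL : LL D = 0) :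
    p ∣ D.rootMultiplicity 1 := by
  obtain ⟨E, hE, hnd⟩ := D.exists_eq_pow_rootMultiplicity_mul_and_not_dvd hD 1
  set j := D.rootMultiplicity 1 with hj
  have hE0 : E.eval 1 ≠ 0 := by
    intro h
    exact hnd (by rw [dvd_iff_isRoot]; exact h)
  set s : (ZMod p)[X] := X - C 1 with hs
  have hsX : (X : (ZMod p)[X]) = s + 1 := by rw [hs, C_1]; ring
  have hds : derivative s = 1 := by rw [hs]; simp
  have h1 := euler1 s E hds j
  have h2 := euler2 s E hds j
  rw [← hE] at h1 h2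
  set E1 := (j : (ZMod p)[X]) * E + s * derivative E with hE1
  set E2 := (j : (ZMod p)[X]) * E1 + s * derivative E1 with hE2
  have key : s ^ j * (-(1 + X) * (1 + 2 * X) * ((2 + 2 * X) * ((1 + 2 * X) * s * E1 + s ^ 2 * E) +
      X * (2 + X) * ((1 + 2 * X) * (E2 - E1) + 3 * s * E1)) -
      (1 + 2 * X + 3 * X ^ 2) * (X * (2 + X) * ((1 + 2 * X) * E1 + s * E)) -
      9 * X ^ 2 * (1 + X) ^ 2 * s * E) = 0 := by
    unfold LL at hL
    have hXL : s * ((1 - X ^ 2) * (1 + 2 * X) * ((2 + 2 * X) * ((1 + 2 * X) * derivative D + D) +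
      X * (2 + X) * ((1 + 2 * X) * derivative (derivative D) + 3 * derivative D)) -
      (1 + 2 * X + 3 * X ^ 2) * (X * (2 + X) * ((1 + 2 * X) * derivative D + D)) -
      9 * X ^ 2 * (1 + X) ^ 2 * D) = 0 := by rw [hL, mul_zero]
    have hx2 : (1 - X ^ 2 : (ZMod p)[X]) = -(1 + X) * s := by rw [hs, C_1]; ring
    rw [hx2] at hXL
    linear_combination hXL - (-(1 + X) * (1 + 2 * X) * ((2 + 2 * X) * (1 + 2 * X) * s +
      3 * X * (2 + X) * s) - (1 + 2 * X + 3 * X ^ 2) * (X * (2 + X) * (1 + 2 * X))) * h1 -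
      (-(1 + X) * (1 + 2 * X) * X * (2 + X) * (1 + 2 * X)) * h2 -
      (-(1 + X) * (1 + 2 * X) * (2 + 2 * X) * s ^ 2 - (1 + 2 * X + 3 * X ^ 2) * (X * (2 + X) * s) -
      9 * X ^ 2 * (1 + X) ^ 2 * s) * hE
  have hs0 : s ≠ 0 := by rw [hs]; exact X_sub_C_ne_zero 1
  rcases mul_eq_zero.mp key with h | h
  · exact absurd h (pow_ne_zero _ hs0)
  · have h3 := congrArg (eval 1) h
    have es : s.eval 1 = 0 := by rw [hs]; simp
    have e1 : E1.eval 1 = (j : ZMod p) * E.eval 1 := by rw [hE1]; simp [es]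
    have e2 : E2.eval 1 = (j : ZMod p) * ((j : ZMod p) * E.eval 1) := by rw [hE2]; simp [e1, es]
    simp only [eval_mul, eval_add, eval_sub, eval_pow, eval_X, eval_one, eval_ofNat, eval_zero,
      eval_neg] at h3
    rw [e1, e2, es] at h3
    have h4 : (2 : ZMod p) * (3 : ZMod p) ^ 3 * ((j : ZMod p) ^ 2 * E.eval 1) = 0 := by
      linear_combination -h3
    have h5 : (j : ZMod p) = 0 := by
      by_contra hne
      exact (mul_ne_zero (mul_ne_zero (two_ne hp2) (pow_ne_zero 3 (three_ne hp3)))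
        (mul_ne_zero (pow_ne_zero 2 hne) hE0)) h4
    exact (ZMod.natCast_eq_zero_iff _ _).mp h5

/-! ### Degrees and values -/

lemma natDegree_hh_le (X' Y' : (ZMod p)[X]) (hX : X'.natDegree ≤ 4) (hY : Y'.natDegree ≤ 4) :
    (hh p 0 X' Y').natDegree ≤ 4 * (p / 2) := by
  unfold hh
  refine natDegree_sum_le_of_forall_le _ _ fun k hk => ?_
  rw [mem_range, Nat.lt_succ_iff] at hk
  refine (natDegree_C_mul_le _ _).trans ?_
  refine natDegree_mul_le.trans ?_
  have h1 : (X' ^ k).natDegree ≤ k * 4 := natDegree_pow_le.trans (Nat.mul_le_mul_left k hX)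
  have h2 : (Y' ^ (p / 2 - k)).natDegree ≤ (p / 2 - k) * 4 :=
    natDegree_pow_le.trans (Nat.mul_le_mul_left _ hY)
  omega

lemma eval_hh (X' Y' : (ZMod p)[X]) (a : ZMod p) : (hh p 0 X' Y').eval a =
    ∑ k ∈ range (p / 2 + 1), ((p / 2).choose k : ZMod p) ^ 2 * (X'.eval a ^ k * Y'.eval a ^ (p / 2 - k)) := by
  unfold hh
  rw [eval_finsetSum]
  refine sum_congr rfl fun k _ => ?_
  simp

lemma pow_half (hp2 : p ≠ 2) (y : ZMod p) (hy : y ≠ 0) : (y ^ 3) ^ (p / 2) = y ^ (p / 2) := by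
  have hodd : p % 2 = 1 := by
    rcases (Fact.out : p.Prime).eq_two_or_odd with h | h
    · exact absurd h hp2
    · exact h
  have h1 : 3 * (p / 2) = p / 2 + (p - 1) := by omega
  rw [← pow_mul, h1, pow_add, ZMod.pow_card_sub_one_eq_one hy, mul_one]

lemma AA_eq_BB (hp2 : p ≠ 2) (hp3 : p ≠ 3) : AA p = BB p := by
  by_contra hne
  have hp := (Fact.out : p.Prime)
  have hodd : p % 2 = 1 := by
    rcases hp.eq_two_or_odd with h | h
    · exact absurd h hp2
    · exact h
  set D := AA p - BB p with hD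
  have hD0 : D ≠ 0 := sub_ne_zero.mpr hne
  have hL : LL D = 0 := by rw [hD, LL_sub, LL_AA hp2, LL_BB hp2, sub_zero]
  have hr0 : D.eval 0 = 0 := by
    rw [hD, eval_sub]
    unfold AA BB
    rw [eval_hh, eval_hh, sub_eq_zero]
    refine sum_congr rfl fun k _ => ?_
    simp
  have hr1 : D.eval 1 = 0 := by
    rw [hD, eval_sub]
    unfold AA BB
    rw [eval_hh, eval_hh, sub_eq_zero]
    refine sum_congr rfl fun k hk => ?_
    rw [mem_range, Nat.lt_succ_iff] at hk
    simp only [eval_mul, eval_add, eval_pow, eval_X, eval_one, eval_ofNat]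
    have h3 := pow_half hp2 (3 : ZMod p) (three_ne hp3)
    have e1 : ∀ x : ZMod p, x ^ k * x ^ (p / 2 - k) = x ^ (p / 2) := by
      intro x
      rw [← pow_add]; congr 1; omega
    have e2 : (1 * (2 + 1) ^ 3 : ZMod p) = 3 ^ 3 := by norm_num
    have e3 : ((1 + 2 * 1) ^ 3 : ZMod p) = 3 ^ 3 := by norm_num
    have e4 : (1 ^ 3 * (2 + 1) : ZMod p) = 3 := by norm_num
    have e5 : (1 + 2 * 1 : ZMod p) = 3 := by norm_num
    rw [e2, e3, e4, e5, e1, e1, h3]
  have hm0 : p ≤ D.rootMultiplicity 0 := by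
    have h1 := (rootMultiplicity_pos hD0).mpr hr0
    exact Nat.le_of_dvd h1 (root0 hp2 D hD0 hL)
  have hm1 : p ≤ D.rootMultiplicity 1 := by
    have h1 := (rootMultiplicity_pos hD0).mpr hr1
    exact Nat.le_of_dvd h1 (root1 hp2 hp3 D hD0 hL)
  have d0 : (X - C (0 : ZMod p)) ^ p ∣ D := (le_rootMultiplicity_iff hD0).mp hm0
  have d1 : (X - C (1 : ZMod p)) ^ p ∣ D := (le_rootMultiplicity_iff hD0).mp hm1
  have hcop : IsCoprime ((X - C (0 : ZMod p)) ^ p) ((X - C (1 : ZMod p)) ^ p) := by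
    apply IsCoprime.pow
    exact isCoprime_X_sub_C_of_isUnit_sub (by simp)
  have hd := hcop.mul_dvd d0 d1
  have hdeg := natDegree_le_of_dvd hd hD0
  rw [natDegree_mul (pow_ne_zero _ (X_sub_C_ne_zero _)) (pow_ne_zero _ (X_sub_C_ne_zero _)),
    natDegree_pow, natDegree_pow, natDegree_X_sub_C, natDegree_X_sub_C] at hdeg
  have hA : (AA p).natDegree ≤ 4 * (p / 2) := by
    apply natDegree_hh_le
    · compute_degree
    · compute_degree
      norm_num
  have hB : (BB p).natDegree ≤ 4 * (p / 2) := by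
    apply natDegree_hh_le
    · compute_degree
    · compute_degree
      norm_num
  have hDd : D.natDegree ≤ 4 * (p / 2) := (natDegree_sub_le _ _).trans (max_le hA hB)
  have := hp.two_le
  omega

/-- the Hasse polynomial -/
def HH (p : ℕ) (x : ZMod p) : ZMod p := ∑ k ∈ range (p / 2 + 1), ((p / 2).choose k : ZMod p) ^ 2 * x ^ k

/-- **The cubic transformation.** -/
theorem HH_eq (hp2 : p ≠ 2) (hp3 : p ≠ 3) (t : ZMod p) (ht : 1 + 2 * t ≠ 0) :
    HH p (t * (2 + t) ^ 3 / (1 + 2 * t) ^ 3) = HH p (t ^ 3 * (2 + t) / (1 + 2 * t)) := by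
  have h := congrArg (eval t) (AA_eq_BB (p := p) hp2 hp3)
  unfold AA BB at h
  rw [eval_hh, eval_hh] at h
  simp only [eval_mul, eval_add, eval_pow, eval_X, eval_one, eval_ofNat] at h
  have e : ∀ x y : ZMod p, y ≠ 0 → ∑ k ∈ range (p / 2 + 1), ((p / 2).choose k : ZMod p) ^ 2 *
      (x ^ k * y ^ (p / 2 - k)) = y ^ (p / 2) * HH p (x / y) := by
    intro x y hy
    unfold HH
    rw [mul_sum]
    refine sum_congr rfl fun k hk => ?_
    rw [mem_range, Nat.lt_succ_iff] at hk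
    have h1 : y ^ (p / 2) = y ^ k * y ^ (p / 2 - k) := by rw [← pow_add]; congr 1; omega
    rw [h1, div_pow]
    field_simp
  rw [e _ _ (pow_ne_zero 3 ht), e _ _ ht, pow_half hp2 _ ht] at h
  exact mul_left_cancel₀ (pow_ne_zero _ ht) h

/-! ### Central binomial coefficients -/

lemma central (hp2 : p ≠ 2) (k : ℕ) (hk : k ≤ p / 2) :
    (k.centralBinom : ZMod p) = (-4) ^ k * ((p / 2).choose k : ZMod p) := by
  induction k with
  | zero => simp
  | succ k ih =>
    have ih' := ih (by omega)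
    have h1 := congrArg (Nat.cast : ℕ → ZMod p) (Nat.succ_mul_centralBinom_succ k)
    have h2 := congrArg (Nat.cast : ℕ → ZMod p) (Nat.choose_succ_right_eq (p / 2) k)
    rw [Nat.cast_mul, Nat.cast_mul, Nat.cast_sub (by omega), Nat.cast_add, Nat.cast_one] at h2
    push_cast at h1
    have h5 := two_half (p := p) hp2
    have hk0 : ((k : ZMod p) + 1) ≠ 0 := by
      have : ((k + 1 : ℕ) : ZMod p) ≠ 0 := by
        rw [Ne, ZMod.natCast_eq_zero_iff]
        intro hd
        have := Nat.le_of_dvd (by omega) hd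
        have := (Fact.out : p.Prime).two_le
        omega
      exact_mod_cast this
    apply mul_left_cancel₀ hk0
    rw [h1, ih']
    have h6 : ((p / 2).choose (k + 1) : ZMod p) * ((k : ZMod p) + 1) =
      ((p / 2).choose k : ZMod p) * (((p / 2 : ℕ) : ZMod p) - k) := h2
    rw [pow_succ]
    linear_combination (-4) ^ k * 4 * h6 + (-4) ^ k * 2 * ((p / 2).choose k : ZMod p) * h5

/-- the sequence `U_k(11, 1)` -/
def U : ℕ → ℤ
  | 0 => 0
  | 1 => 1
  | n + 2 => 11 * U (n + 1) - U n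

lemma U_binet (r : ZMod p) (hr : r ^ 2 = 13) (k : ℕ) :
    3 * r * 16 ^ k * (U k : ZMod p) = (88 + 24 * r) ^ k - (88 - 24 * r) ^ k := by
  induction k using Nat.strong_induction_on with
  | _ k ih =>
    match k with
    | 0 => simp [U]
    | 1 => simp [U]; ring
    | n + 2 =>
      have h1 := ih (n + 1) (by omega)
      have h2 := ih n (by omega)
      have h3 : U (n + 2) = 11 * U (n + 1) - U n := rfl
      rw [h3]
      push_cast
      linear_combination 176 * h1 - 256 * h2 -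
        576 * ((88 + 24 * r) ^ n - (88 - 24 * r) ^ n) * hr

lemma sq13 : ∀ m ∈ ({1, 3, 4, 9, 10, 12} : Finset ℕ), IsSquare ((m : ℕ) : ZMod 13) := by
  intro m hm
  simp only [Finset.mem_insert, Finset.mem_singleton] at hm
  rcases hm with rfl | rfl | rfl | rfl | rfl | rfl
  · exact ⟨1, by decide⟩
  · exact ⟨4, by decide⟩
  · exact ⟨2, by decide⟩
  · exact ⟨3, by decide⟩
  · exact ⟨6, by decide⟩
  · exact ⟨5, by decide⟩

theorem main (p : ℕ) (hp : p.Prime) (h3 : 3 < p) (h : p % 13 ∈ ({1, 3, 4, 9, 10, 12} : Finset ℕ)) :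
    (p : ℤ) ∣ ∑ k ∈ range ((p - 1) / 2 + 1), (Nat.choose (2 * k) k : ℤ) ^ 2 * U k := by
  have : Fact p.Prime := ⟨hp⟩
  have hp2 : p ≠ 2 := by omega
  have hp3 : p ≠ 3 := by omega
  have hodd : p % 2 = 1 := by
    rcases hp.eq_two_or_odd with h | h
    · exact absurd h hp2
    · exact h
  have : Fact (Nat.Prime 13) := ⟨by norm_num⟩
  have hsq : IsSquare ((13 : ℕ) : ZMod p) := by
    rw [← ZMod.exists_sq_eq_prime_iff_of_mod_four_eq_one (p := 13) (q := p) (by norm_num) hp2]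
    have h1 : (p : ZMod 13) = ((p % 13 : ℕ) : ZMod 13) := by rw [ZMod.natCast_mod]
    rw [h1]
    exact sq13 _ h
  obtain ⟨r, hr'⟩ := hsq
  have hr : r ^ 2 = 13 := by rw [pow_two, ← hr']; norm_num
  have h13 : (13 : ZMod p) ≠ 0 := by
    intro h0
    have h1 : ((13 : ℕ) : ZMod p) = 0 := by exact_mod_cast h0
    rw [ZMod.natCast_eq_zero_iff] at h1
    have h2 := (Nat.prime_dvd_prime_iff_eq hp (by norm_num)).mp h1
    rw [h2] at h
    revert h
    decide
  have hr0 : r ≠ 0 := by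
    rintro rfl
    apply h13
    rw [← hr]; ring
  have h72 : 1 + 2 * (3 + r) ≠ 0 := by
    intro h0
    apply three_ne (p := p) hp3
    linear_combination (2 * r - 7) * h0 - 4 * hr
  have hH := HH_eq (p := p) hp2 hp3 (3 + r) h72
  have e1 : (3 + r) ^ 3 * (2 + (3 + r)) / (1 + 2 * (3 + r)) = 88 + 24 * r := by
    rw [div_eq_iff h72]
    linear_combination (r ^ 2 + 14 * r + 37) * hr
  have e2 : (3 + r) * (2 + (3 + r)) ^ 3 / (1 + 2 * (3 + r)) ^ 3 = 88 - 24 * r := by
    rw [div_eq_iff (pow_ne_zero 3 h72)]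
    linear_combination (193 * r ^ 2 + 1330 * r + 2293) * hr
  rw [e1, e2] at hH
  have hN : (p - 1) / 2 = p / 2 := by omega
  rw [hN, ← ZMod.intCast_zmod_eq_zero_iff_dvd]
  push_cast
  have key : 3 * r * ∑ k ∈ range (p / 2 + 1), (Nat.choose (2 * k) k : ZMod p) ^ 2 * (U k : ZMod p) =
      HH p (88 + 24 * r) - HH p (88 - 24 * r) := by
    unfold HH
    rw [mul_sum, ← sum_sub_distrib]
    refine sum_congr rfl fun k hk => ?_
    rw [mem_range, Nat.lt_succ_iff] at hk
    have hc := central (p := p) hp2 k hk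
    rw [Nat.centralBinom] at hc
    have hb := U_binet r hr k
    have h16 : ((-4 : ZMod p) ^ k) ^ 2 = 16 ^ k := by
      rw [← pow_mul, mul_comm, pow_mul]; norm_num
    rw [hc]
    linear_combination ((p / 2).choose k : ZMod p) ^ 2 * hb +
      3 * r * ((p / 2).choose k : ZMod p) ^ 2 * (U k : ZMod p) * h16
  rw [hH, sub_self] at key
  rcases mul_eq_zero.mp key with h0 | h0
  · exact absurd h0 (mul_ne_zero (three_ne hp3) hr0)
  · exact h0

end Pool.Agent.Q278.LS
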